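import Mathlib

namespace Pool.Agent.Results.MP_5f020a_co.Counter

open Finset SimpleGraph

variable {V : Type} [Fintype V]

/-- The template `P` on `K_n` is `H`-SDR-free: for no copy of `H` in `K_n` (the image of an injection
`φ`) can pairwise distinct colours be chosen from the palettes of its edges. -/
def SDRFree (H : SimpleGraph V) {n l : ℕ} (P : Sym2 (Fin n) → Finset (Fin l)) : Prop :=
  ∀ φ : V ↪ Fin n, ¬∃ f : Sym2 V → Fin l,
    Set.InjOn f H.edgeSet ∧ ∀ e ∈ H.edgeSet, f e ∈ P (e.map φ)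

/-- `ex_log(n; H, l)`: only the values of `P` on the edges of `K_n` matter. -/
noncomputable def exLog (H : SimpleGraph V) (l n : ℕ) : ℝ :=
  sSup {x | ∃ P : Sym2 (Fin n) → Finset (Fin l),
    (∀ e ∈ (⊤ : SimpleGraph (Fin n)).edgeFinset, (P e).Nonempty) ∧ SDRFree H P ∧
      x = ∑ e ∈ (⊤ : SimpleGraph (Fin n)).edgeFinset, Real.log (P e).card}

/-- `λ(H, l)`. -/
noncomputable def lam (H : SimpleGraph V) (l : ℕ) : ℝ :=
  sInf {x | ∃ n, Fintype.card V ≤ n ∧ x = exLog H l n / n.choose 2}

/-- `χ_j(H)`. -/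
noncomputable def chi (H : SimpleGraph V) (j : ℕ) : ℕ∞ :=
  ⨅ (S : Finset (Sym2 V)) (_ : ↑S ⊆ H.edgeSet ∧ S.card = j), (H.deleteEdges S).chromaticNumber

/-- `π_j(H)`. -/
noncomputable def pi (H : SimpleGraph V) (j : ℕ) : ℝ :=
  if 3 ≤ chi H j then 1 - 1 / (((chi H j).toNat : ℝ) - 1) else 0

/-- `K_{12,12}` minus the edge `(0,0)(1,0)`, plus the edges `(s,0)(s,1)`, `(s,0)(s,2)` on each side. -/
def G : SimpleGraph (Fin 2 × Fin 12) := fromRel fun a b =>
  (a.1 ≠ b.1 ∧ ¬(a.2 = 0 ∧ b.2 = 0)) ∨ (a.1 = b.1 ∧ a.2 = 0 ∧ (b.2 = 1 ∨ b.2 = 2))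

instance : DecidableRel G.Adj := fun _ _ => by unfold G; infer_instance

lemma ecard : G.edgeFinset.card = 147 := by decide +kernel

def T (n : ℕ) : Sym2 (Fin n) → Finset (Fin 7000) := Sym2.lift ⟨fun x y =>
  if x.val < n / 2 ∧ y.val < n / 2 then {0} else if ¬x.val < n / 2 ∧ ¬y.val < n / 2 then Iio 10
    else univ, fun x y => by simp only [and_comm]⟩

lemma free (n : ℕ) : SDRFree G (T n) := by
  rintro φ ⟨f, hf, h⟩
  have k : ∀ s, ∃ i, ¬(φ (s, i)).val < n / 2 := fun s => by
    by_contra H
    simp only [not_exists, not_not] at H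
    have a1 : s((s, 0), (s, 1)) ∈ G.edgeSet := by clear H; revert s; decide
    have a2 : s((s, 0), (s, 2)) ∈ G.edgeSet := by clear H a1; revert s; decide
    have b1 := h _ a1
    have b2 := h _ a2
    simp only [T, Sym2.map_mk, Sym2.lift_mk, H, and_self, if_true, mem_singleton] at b1 b2
    have := hf a1 a2 (b1.trans b2.symm)
    simp at this
  obtain ⟨p, hp, q⟩ : ∃ p : Fin 12 → Fin 12 × Fin 12, Function.Injective p ∧
      ∀ i, ((φ (0, (p i).1)).val < n / 2 ↔ (φ (1, (p i).2)).val < n / 2) := by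
    by_cases H : ∃ i, (φ (0, i)).val < n / 2
    · obtain ⟨a, ha⟩ := H
      obtain ⟨b, hb⟩ := k 0
      refine ⟨fun i => (if (φ (1, i)).val < n / 2 then a else b, i),
        fun i j e => congrArg Prod.snd e, fun i => ?_⟩
      dsimp only
      split_ifs with c <;> simp [*]
    · obtain ⟨b, hb⟩ := k 1
      exact ⟨fun i => (i, b), fun i j e => congrArg Prod.fst e,
        fun i => iff_of_false (fun c => H ⟨i, c⟩) hb⟩
  have e : ∀ x ∈ (univ.image p).erase (0, 0), s((0, x.1), (1, x.2)) ∈ G.edgeSet := fun x hx => by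
    have := (mem_erase.1 hx).1
    simp only [mem_edgeSet, G, fromRel_adj]
    exact ⟨by simp, Or.inl (Or.inl ⟨by simp, fun c => this (Prod.ext c.1 c.2)⟩)⟩
  have := card_le_card_of_injOn (s := (univ.image p).erase (0, 0)) (t := Iio (10 : Fin 7000))
    (fun x => f s((0, x.1), (1, x.2))) (fun x hx => ?_) fun x hx y hy c => by
      have := hf (e x hx) (e y hy) c
      simp only [Sym2.eq_iff, Prod.mk.injEq, true_and, zero_ne_one, false_and, or_false] at this
      exact Prod.ext this.1 this.2
  · have c := pred_card_le_card_erase (s := univ.image p) (a := (0, 0))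
    rw [card_image_of_injective _ hp] at c
    simp at this c
    omega
  · have c := h _ (e x hx)
    obtain ⟨i, -, rfl⟩ := mem_image.1 (mem_erase.1 hx).2
    simp only [T, Sym2.map_mk, Sym2.lift_mk, q, and_self] at c
    split_ifs at c
    · simp only [mem_singleton.1 c]; decide
    · exact c

lemma val (n : ℕ) (hn : 2 ≤ n) : (Real.log 7000 / 2 + Real.log 10 / 4) * n.choose 2 ≤ exLog G 7000 n := by
  refine le_trans ?_ (le_csSup ((Set.finite_range fun P : Sym2 (Fin n) → Finset (Fin 7000) =>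
    ∑ e ∈ (⊤ : SimpleGraph (Fin n)).edgeFinset, Real.log (P e).card).subset
      (by rintro x ⟨P, _, _, h⟩; exact ⟨P, h.symm⟩)).bddAbove ⟨T n, fun e _ => ?_, free n, rfl⟩)
  · set A : Finset (Fin n) := univ.filter fun x => x.val < n / 2 with hA
    have cA : A.card = n / 2 := by rw [hA, Fin.card_filter_val_lt]; omega
    have cB : Aᶜ.card = n - n / 2 := by rw [card_compl, cA, Fintype.card_fin]
    have X : ∑ e ∈ (A ×ˢ Aᶜ).image (Function.uncurry Sym2.mk), Real.log (T n e).card =
        (n / 2 * (n - n / 2) : ℕ) * Real.log 7000 := by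
      rw [sum_image fun x hx y hy e => by
        simp only [coe_product, Set.mem_prod, mem_coe, mem_compl] at hx hy
        rcases Sym2.eq_iff.1 e with h | h
        · exact Prod.ext h.1 h.2
        · exact absurd (h.1 ▸ hx.1) hy.2, sum_congr rfl (g := fun _ => Real.log 7000) fun x hx => by
          simp only [mem_product, mem_compl, hA, mem_filter, mem_univ, true_and] at hx
          simp only [T, Function.uncurry, Sym2.lift_mk, hx.1, hx.2]
          simp]
      rw [sum_const, card_product, cA, cB, nsmul_eq_mul]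
    have Y : ∑ e ∈ Aᶜ.offDiag.image (Function.uncurry Sym2.mk), Real.log (T n e).card =
        (n - n / 2).choose 2 * Real.log 10 := by
      rw [sum_congr rfl (g := fun _ => Real.log 10) fun e he => by
        obtain ⟨x, hx, rfl⟩ := mem_image.1 he
        simp only [mem_offDiag, mem_compl, hA, mem_filter, mem_univ, true_and] at hx
        simp only [T, Function.uncurry, Sym2.lift_mk, hx.1, hx.2.1]
        simp, sum_const, Sym2.card_image_offDiag, cB,
        nsmul_eq_mul]
    refine le_trans ?_ (sum_le_sum_of_subset_of_nonneg (s := (A ×ˢ Aᶜ).image (Function.uncurry Sym2.mk) ∪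
      Aᶜ.offDiag.image (Function.uncurry Sym2.mk)) (fun e he => ?_) fun _ _ _ => Real.log_natCast_nonneg _)
    · rw [sum_union (disjoint_left.2 fun e h1 h2 => by
        obtain ⟨x, hx, rfl⟩ := mem_image.1 h1
        obtain ⟨y, hy, e⟩ := mem_image.1 h2
        simp only [mem_offDiag, mem_product, mem_compl] at hx hy
        rcases Sym2.eq_iff.1 e with h | h
        · exact hy.1 (h.1 ▸ hx.1)
        · exact hy.2.1 (h.2 ▸ hx.1)), X, Y, Nat.cast_choose_two, Nat.cast_choose_two]
      have l1 : 0 ≤ Real.log 10 := Real.log_nonneg (by norm_num)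
      have l2 : Real.log 10 ≤ Real.log 7000 := Real.log_le_log (by norm_num) (by norm_num)
      obtain ⟨m, rfl | rfl⟩ := Nat.even_or_odd' n
      · rw [show 2 * m / 2 = m by omega, show 2 * m - m = m by omega]
        push_cast
        nlinarith [mul_le_mul_of_nonneg_left l2 (Nat.cast_nonneg m), mul_nonneg l1 (Nat.cast_nonneg m)]
      · rw [show (2 * m + 1) / 2 = m by omega, show 2 * m + 1 - m = m + 1 by omega]
        push_cast
        nlinarith [mul_le_mul_of_nonneg_left l2 (Nat.cast_nonneg m), mul_nonneg l1 (Nat.cast_nonneg m)]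
    · rcases mem_union.1 he with he | he <;> obtain ⟨x, hx, rfl⟩ := mem_image.1 he <;>
        simp only [mem_offDiag, mem_product, mem_compl] at hx <;>
        simp only [Function.uncurry, mem_edgeFinset, mem_edgeSet, top_adj]
      · exact fun c => hx.2 (c ▸ hx.1)
      · exact hx.2.2
  · induction e using Sym2.ind
    simp only [T, Sym2.lift_mk]
    split_ifs
    · simp
    · exact ⟨0, by decide⟩
    · simp

theorem result : ∃ (H : SimpleGraph (Fin 2 × Fin 12)) (l : ℕ),
    (∀ v, ∃ w, H.Adj v w) ∧ 3 ≤ H.edgeSet.ncard ∧ (∃ u v w, u ≠ w ∧ H.Adj u v ∧ H.Adj v w) ∧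
    H.edgeSet.ncard ≤ l ∧
    (∀ j : ℕ, 1 ≤ j → j ≤ H.edgeSet.ncard - 1 →
      (l : ℝ) ^ pi H j * (j : ℝ) ^ (1 - pi H j) ≤ H.edgeSet.ncard - 1) ∧
    Real.log (H.edgeSet.ncard - 1) < lam H l := by
  have e : G.edgeSet.ncard = 147 := by rw [← coe_edgeFinset, Set.ncard_coe_finset, ecard]
  refine ⟨G, 7000, by decide, by omega, ⟨(0, 1), (0, 0), (0, 2), by decide⟩, by omega,
    fun j h1 h2 => ?_, lt_of_lt_of_le ?_ (le_csInf ⟨_, 24, by simp, rfl⟩ ?_ (a :=
      Real.log 7000 / 2 + Real.log 10 / 4))⟩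
  · rw [e] at h2 ⊢
    unfold pi
    split_ifs with c
    · have j3 : j ≤ 3 := by
        by_contra j3
        obtain ⟨S, s1, s2, s3⟩ := exists_subsuperset_card_eq (n := j) (show ({s((0, 0), (0, 1)),
          s((0, 0), (0, 2)), s((1, 0), (1, 1)), s((1, 0), (1, 2))} : Finset _) ⊆ G.edgeFinset by decide)
          (card_le_four.trans (by omega)) (by rw [ecard]; omega)
        have : (G.deleteEdges S).Colorable 2 := ⟨Coloring.mk Prod.fst fun {a b} h c => by
          rw [deleteEdges_adj] at h
          refine h.2 (s1 ?_)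
          have := h.1
          clear h
          revert a b
          decide⟩
        exact absurd ((c.trans (iInf₂_le S ⟨by rwa [← coe_edgeFinset, coe_subset], s3⟩)).trans
          this.chromaticNumber_le) (by decide)
      obtain ⟨S, s2, s3⟩ := exists_subset_card_eq (s := G.edgeFinset) (n := j) (by rw [ecard]; omega)
      have : G.Colorable 3 := ⟨Coloring.mk (fun a => if a.2 = 0 then 2 else a.1.castSucc)
        (by decide)⟩
      rw [show chi G j = 3 from le_antisymm ((iInf₂_le S ⟨by rwa [← coe_edgeFinset, coe_subset],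
        s3⟩).trans (this.mono_left (deleteEdges_le _)).chromaticNumber_le) c]
      have : (j : ℝ) ≤ 3 := by exact_mod_cast j3
      rw [show 1 - 1 / ((((3 : ℕ∞).toNat : ℕ) : ℝ) - 1) = 1 / 2 by norm_num, show (1 : ℝ) - 1 / 2 = 1 / 2 by
        norm_num, ← Real.mul_rpow (by positivity) (by positivity), ← Real.sqrt_eq_rpow,
        Real.sqrt_le_left (by norm_num)]
      push_cast
      linarith
    · have : (j : ℝ) ≤ 146 := by exact_mod_cast h2
      simp
      linarith
  · have := Real.log_lt_log (show (0 : ℝ) < 146 ^ 4 by norm_num) (show _ < (7000 : ℝ) ^ 2 * 10 by norm_num)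
    rw [Real.log_mul (by norm_num) (by norm_num), Real.log_pow, Real.log_pow] at this
    rw [e]
    norm_num at this ⊢
    linarith
  · rintro _ ⟨n, hn, rfl⟩
    have : 24 ≤ n := by simpa using hn
    rw [le_div_iff₀ (Nat.cast_pos.2 (Nat.choose_pos (by omega)))]
    exact val n (by omega)

end Pool.Agent.Results.MP_5f020a_co.Counter
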